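import Pool.Agent.Helper94.LG.Sheet

/-! # Row SUM of LG (MP_665203_co): counting -/

set_option autoImplicit false

open MeasureTheory Metric Set Filter Topology
open scoped ENNReal NNReal

namespace H11ST
namespace LG
namespace S63

section
variable {ι V : Type} (p : ι → V)

theorem esum_add (f g : V → V → ℝ) (t : BT ι V) :
    t.esum p (fun a b => f a b + g a b) = t.esum p f + t.esum p g := by
  induction t with
  | leaf i => simp [BT.esum]
  | node z l r hl hr =>
    simp only [BT.esum, hl, hr]
    ring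

theorem esum_mul (c : ℝ) (f : V → V → ℝ) (t : BT ι V) :
    t.esum p (fun a b => c * f a b) = c * t.esum p f := by
  induction t with
  | leaf i => simp [BT.esum]
  | node z l r hl hr =>
    simp only [BT.esum, hl, hr]
    ring

theorem esum_sum {κ : Type} (s : Finset κ) (f : κ → V → V → ℝ) (t : BT ι V) :
    t.esum p (fun a b => ∑ k ∈ s, f k a b) = ∑ k ∈ s, t.esum p (f k) := by
  induction t with
  | leaf i => simp [BT.esum]
  | node z l r hl hr =>
    simp only [BT.esum, hl, hr, Finset.sum_add_distrib]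

theorem nsum_sum {κ : Type} (s : Finset κ) (u : κ → V → ℝ) (t : BT ι V) :
    t.nsum (fun a => ∑ k ∈ s, u k a) = ∑ k ∈ s, t.nsum (u k) := by
  induction t with
  | leaf i => simp [BT.nsum]
  | node z l r hl hr =>
    simp only [BT.nsum, hl, hr, Finset.sum_add_distrib]

/-- `1` for a leaf -/
def lam : BT ι V → ℝ
  | .leaf _ => 1
  | .node _ _ _ => 0

/-- number of nodes -/
def nn (t : BT ι V) : ℝ := t.nsum fun _ => 1

theorem nn_leaf (i : ι) : nn (BT.leaf i : BT ι V) = 0 := rfl

theorem nn_node (z : V) (l r : BT ι V) : nn (BT.node z l r) = 1 + nn l + nn r := rfl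

theorem card_lv [DecidableEq ι] (t : BT ι V) (h : t.ok) : (t.lv.card : ℝ) = nn t + 1 := by
  induction t with
  | leaf i => simp [BT.lv, nn_leaf]
  | node z l r hl hr =>
    obtain ⟨h1, h2, h3⟩ := h
    rw [BT.lv, Finset.card_union_of_disjoint h3, Nat.cast_add, hl h1, hr h2, nn_node]
    ring

end

variable {d : ℕ}

theorem sT_nonneg (v : E d) : 0 ≤ sT v := by
  unfold sT
  refine Finset.sum_nonneg fun k _ => ?_
  unfold Th
  split_ifs <;> positivity

theorem Th_nonneg (x : ℝ) : 0 ≤ Th x := by
  unfold Th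
  split_ifs <;> positivity

theorem sT_big (v : E d) (h : 1 / 2 ≤ ‖v‖) : 1 / 4 ≤ sT v := by
  by_cases hc : ∃ k, 1 / 2 < v k
  · obtain ⟨k, hk⟩ := hc
    have h1 : Th (v k) ≤ sT v := by
      unfold sT
      exact Finset.single_le_sum (f := fun k => Th (v k)) (fun k _ => Th_nonneg _)
        (Finset.mem_univ k)
    have h2 : 1 / 4 ≤ Th (v k) := by
      unfold Th
      rw [if_neg (not_le.2 hk)]
      nlinarith
    linarith
  · push Not at hc
    have h1 : sT v = ‖v‖ ^ 2 := by
      rw [EuclideanSpace.norm_sq_eq]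
      unfold sT
      refine Finset.sum_congr rfl fun k _ => ?_
      unfold Th
      rw [if_pos (hc k), Real.norm_eq_abs, sq_abs]
    rw [h1]
    nlinarith

theorem Th_zero : Th 0 = 0 := by
  unfold Th
  rw [if_pos (by norm_num)]
  norm_num

theorem Th_one : Th 1 = 5 / 8 := by
  unfold Th
  rw [if_neg (by norm_num)]
  norm_num

theorem FF_zero : FF 0 = 0 := by
  unfold FF
  rw [if_pos (by norm_num)]
  norm_num

theorem FF_one : FF 1 = 7 / 8 := by
  unfold FF
  rw [if_neg (by norm_num)]
  norm_num

theorem tm_self (i : Fin d) : (tm d i) i = 1 := by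
  simp [tm]

theorem tm_ne (i k : Fin d) (h : k ≠ i) : (tm d i) k = 0 := by
  simp [tm, h]

theorem tm_mem (i : Fin d) : tm d i ∈ Dl d := by
  refine ⟨fun k => ?_, ?_⟩
  · by_cases h : k = i
    · rw [h, tm_self]
      norm_num
    · rw [tm_ne i k h]
  · rw [Finset.sum_eq_single i (fun k _ hk => tm_ne i k hk)
      (fun h => absurd (Finset.mem_univ i) h), tm_self]

theorem pos_mem (t : BT (Fin d) (E d)) (h : ∀ z ∈ t.nodes, z ∈ Dl d) : t.pos (tm d) ∈ Dl d := by
  cases t with
  | leaf i => exact tm_mem i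
  | node z l r => exact h z (by simp [BT.nodes])

/-- the inequality at an edge below a node of norm `≥ 1 / 2` -/
theorem edge_big (hED : LG_ED) (hLF : LG_LF) (z : E d) (hz : z ∈ Dl d) (hz2 : 1 / 2 ≤ ‖z‖)
    (l : BT (Fin d) (E d)) (hl : l.pos (tm d) ∈ Dl d) :
    8 / 100 * lam l - (sT z - 1 / 4) ≤ EE z (l.pos (tm d)) - TE z (l.pos (tm d)) := by
  cases l with
  | leaf i =>
    have := hLF d z hz hz2 i
    unfold SL at this
    change 8 / 100 * 1 - (sT z - 1 / 4) ≤ EE z (tm d i) - TE z (tm d i)
    linarith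
  | node w a b =>
    have h1 := hED d z ((BT.node w a b).pos (tm d)) hz hl
    have h2 := sT_big z hz2
    have h3 : lam (BT.node w a b : BT (Fin d) (E d)) = 0 := rfl
    rw [h3]
    linarith

theorem lam_le (l : BT (Fin d) (E d)) : lam l ≤ 1 := by
  cases l with
  | leaf i => exact le_rfl
  | node w a b => exact zero_le_one

/-- the sum over the tree -/
theorem tree (hED : LG_ED) (hLF : LG_LF) (t : BT (Fin d) (E d)) (h : ∀ z ∈ t.nodes, z ∈ Dl d) :
    8 / 100 * (nn t + 1 - lam t) - 66 / 100 * nin t + nn t / 2 ≤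
      t.esum (tm d) EE - t.esum (tm d) TE + 2 * t.nsum sT := by
  classical
  induction t with
  | leaf i =>
    have h1 : lam (BT.leaf i : BT (Fin d) (E d)) = 1 := rfl
    have h2 : nin (BT.leaf i : BT (Fin d) (E d)) = 0 := rfl
    rw [h1, h2, nn_leaf]
    simp [BT.esum, BT.nsum]
  | node z l r hl hr =>
    have hz : z ∈ Dl d := h z (by simp [BT.nodes])
    have hl' : ∀ w ∈ l.nodes, w ∈ Dl d := fun w hw => h w (by simp [BT.nodes, hw])
    have hr' : ∀ w ∈ r.nodes, w ∈ Dl d := fun w hw => h w (by simp [BT.nodes, hw])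
    have il := hl hl'
    have ir := hr hr'
    have pl := pos_mem l hl'
    have pr := pos_mem r hr'
    have h3 : lam (BT.node z l r : BT (Fin d) (E d)) = 0 := rfl
    have h4 : nin (BT.node z l r : BT (Fin d) (E d)) =
        (if ‖z‖ < 1 / 2 then 1 else 0) + nin l + nin r := by
      unfold nin
      simp only [BT.nsum]
    rw [h3, h4, nn_node]
    simp only [BT.esum, BT.nsum]
    by_cases hz2 : ‖z‖ < 1 / 2
    · rw [if_pos hz2]
      have e1 := hED d z (l.pos (tm d)) hz pl
      have e2 := hED d z (r.pos (tm d)) hz pr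
      have e3 := sT_nonneg z
      have e4 := lam_le l
      have e5 := lam_le r
      linarith
    · rw [if_neg hz2]
      push Not at hz2
      have e1 := edge_big hED hLF z hz hz2 l pl
      have e2 := edge_big hED hLF z hz hz2 r pr
      linarith

theorem var_fun (a b : E d) :
    inner ℝ (a - b) (((7 / 8 : ℝ) • a - XX a) - ((7 / 8 : ℝ) • b - XX b)) / ‖a - b‖ =
      15 / 8 * dist a b + (-1) * EE a b := by
  unfold EE
  rw [dist_eq_norm]
  have h1 : ((7 / 8 : ℝ) • a - XX a) - ((7 / 8 : ℝ) • b - XX b) =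
      (7 / 8 : ℝ) • (a - b) - (XX a - XX b) := by
    rw [smul_sub]
    abel
  rw [h1, inner_sub_right, inner_smul_right, real_inner_self_eq_norm_sq]
  rcases eq_or_ne ‖a - b‖ 0 with h | h
  · rw [h]
    simp
  · field_simp
    ring

end S63

open S63 in
theorem sum : LG_SUM := by
  classical
  intro hVAR hTV hED hLF hUP d i0 hd t ht
  have hL : tot i0 dist t ≤ 954 / 1000 * d + 2 / 10 := by
    obtain ⟨t', h1, h2⟩ := hUP d i0 (by omega)
    exact (ht.le t' h1).trans h2
  -- first variation
  have h1 : tot i0 EE t ≤ 15 / 8 * tot i0 dist t := by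
    have hD : ∀ i, (fun y : E d => (7 / 8 : ℝ) • y - XX y) (tm d i) = 0 := by
      intro i
      ext k
      simp only [XX, PiLp.sub_apply, PiLp.smul_apply, smul_eq_mul, PiLp.zero_apply]
      by_cases h : k = i
      · rw [h, tm_self, FF_one]
        norm_num
      · rw [tm_ne i k h, FF_zero]
        norm_num
    have h2 := hVAR d i0 t ht (fun y => (7 / 8 : ℝ) • y - XX y) hD
    have h3 : (fun a b : E d => inner ℝ (a - b) ((fun y : E d => (7 / 8 : ℝ) • y - XX y) a -
        (fun y : E d => (7 / 8 : ℝ) • y - XX y) b) / ‖a - b‖) =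
        fun a b => 15 / 8 * dist a b + (-1) * EE a b := by
      funext a b
      exact var_fun a b
    rw [h3] at h2
    unfold tot at h2 ⊢
    rw [esum_add, esum_mul, esum_mul] at h2
    linarith
  -- trees
  have h2 : 5 / 4 * (d : ℝ) + 2 * t.nsum sT ≤ tot i0 TE t := by
    have h3 : ∀ j : Fin d, 5 / 8 + t.nsum (fun a => Th (a j)) ≤
        tot i0 (fun a b => |Th (a j) - Th (b j)|) t := by
      intro j
      have h4 := hTV d i0 t ht.val (fun a => Th (a j)) j (fun i hi => by
        rw [tm_ne i j (Ne.symm hi), Th_zero])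
      simp only [tm_self, Th_one] at h4
      exact h4
    have h5 := Finset.sum_le_sum fun j (_ : j ∈ Finset.univ) => h3 j
    rw [Finset.sum_add_distrib, Finset.sum_const, Finset.card_univ, Fintype.card_fin,
      nsmul_eq_mul, ← nsum_sum] at h5
    have h6 : ∑ j, tot i0 (fun a b => |Th (a j) - Th (b j)|) t = 1 / 2 * tot i0 TE t := by
      unfold tot
      rw [Finset.sum_add_distrib, ← esum_sum, mul_add, ← esum_mul]
      unfold TE
      congr 1
      · ring
      · congr 1
        funext a b
        ring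
    rw [h6] at h5
    have h7 : t.nsum (fun a => ∑ k, Th (a k)) = t.nsum sT := rfl
    rw [h7] at h5
    linarith
  have h3 := tree hED hLF t ht.mem
  have h4 := hED d (tm d i0) (t.pos (tm d)) (tm_mem i0) (pos_mem t ht.mem)
  have h5 : nn t = (d : ℝ) - 2 := by
    have h6 := card_lv t ht.val.1
    rw [ht.val.2, Finset.card_erase_of_mem (Finset.mem_univ _), Finset.card_univ,
      Fintype.card_fin] at h6
    rw [Nat.cast_sub (by omega)] at h6
    push_cast at h6
    linarith
  have h6 : lam t = 0 := by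
    cases t with
    | leaf i =>
      rw [nn_leaf] at h5
      have : (3 : ℝ) ≤ d := by exact_mod_cast hd
      linarith
    | node z l r => rfl
  rw [h5, h6] at h3
  unfold tot at h1 h2 hL
  linarith

end LG
end H11ST
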